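import Pool.Agent.H97.SHA.Fin
import Pool.Agent.H97.SHL.All

/-!
Short lines at the scale of SETH with a fixed distribution: the theorem.
-/

set_option autoImplicit false

namespace Pool.Agent.H97.SHA

open Finset Pool.Agent.H97.SHL

theorem mainW_of_mainA (H : MainA) : MainW := by
  classical
  intro ε hε
  obtain ⟨C, hC⟩ := H ε hε
  refine ⟨max (5 * C) 2, fun n t hn hnt hlog => ?_⟩
  have hCn : C ≤ n := by omega
  have hn2 : 2 ≤ n := by omega
  have ht2 : 2 ≤ t := hn2.trans hnt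
  have htt : t ≤ 2 * t ^ 2 := by nlinarith
  have hl := log_two_sq ht2
  have h5 : 5 * C ≤ max (5 * C) 2 := le_max_left _ _
  have hlog' : C * Nat.log 2 (2 * t ^ 2) ≤ n := by
    calc C * Nat.log 2 (2 * t ^ 2) ≤ C * (5 * Nat.log 2 t) := Nat.mul_le_mul_left _ hl
      _ = 5 * C * Nat.log 2 t := by ring
      _ ≤ max (5 * C) 2 * Nat.log 2 t := Nat.mul_le_mul_right _ h5
      _ ≤ n := hlog
  obtain ⟨ι, hι, F, hF, hmain⟩ := hC n (2 * t ^ 2) hCn (hnt.trans htt) hlog'
  refine ⟨ι, hι, F, fun i => ?_, fun 𝓛 h𝓛 => ?_⟩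
  · obtain ⟨h1, h2, h3⟩ := hF i
    refine ⟨?_, ?_, h3⟩
    · calc (F i).card ≤ (2 * t ^ 2) ^ C := h1
        _ ≤ (t ^ 5) ^ C := by
            refine Nat.pow_le_pow_left ?_ C
            calc 2 * t ^ 2 ≤ t * t ^ 2 := Nat.mul_le_mul_right _ ht2
              _ = t ^ 3 := by ring
              _ ≤ t ^ 5 := Nat.pow_le_pow_right (by omega) (by norm_num)
        _ = t ^ (5 * C) := by rw [← pow_mul]
        _ ≤ t ^ (max (5 * C) 2) := Nat.pow_le_pow_right (by omega) h5
    · intro D hD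
      calc D.card ≤ C * Nat.log 2 (2 * t ^ 2) := h2 D hD
        _ ≤ C * (5 * Nat.log 2 t) := Nat.mul_le_mul_left _ hl
        _ = 5 * C * Nat.log 2 t := by ring
        _ ≤ max (5 * C) 2 * Nat.log 2 t := Nat.mul_le_mul_right _ h5
  · have hsub : 𝓛 ⊆ cjs 𝓛 t := by
      unfold cjs
      exact subset_union_left
    have hhard : ∀ i, HardU ε (2 * t ^ 2) (cjs 𝓛 t) (F i) → Hard ε t 𝓛 (F i) := by
      intro i hi
      refine ⟨fun s hs => hi.tree s (hs.mono hsub htt),
        fun d s hd hb => hi.branch d s (hd.trans htt) (hb.mono hsub htt),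
        fun T K hK => hi.scan T _ (hK.scan.mono (by nlinarith)),
        fun S r L h hR => hi.dag S r L h (hR.mono hsub htt)⟩
    have h1 : Nat.card {i // ¬ Hard ε t 𝓛 (F i)} ≤
        Nat.card {i // ¬ HardU ε (2 * t ^ 2) (cjs 𝓛 t) (F i)} := by
      rw [Nat.card_eq_fintype_card, Nat.card_eq_fintype_card, Fintype.card_subtype,
        Fintype.card_subtype]
      refine card_le_card fun i hi => ?_
      rw [mem_filter] at hi ⊢
      exact ⟨hi.1, fun h => hi.2 (hhard i h)⟩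
    calc 2 ^ t * Nat.card {i // ¬ Hard ε t 𝓛 (F i)}
        ≤ 2 ^ (2 * t ^ 2) * Nat.card {i // ¬ HardU ε (2 * t ^ 2) (cjs 𝓛 t) (F i)} :=
          Nat.mul_le_mul (Nat.pow_le_pow_right (by norm_num) htt) h1
      _ < Nat.card ι := hmain (cjs 𝓛 t) (card_cjs 𝓛 t ht2 h𝓛)

theorem aENG : T_ENG :=
  pf_ENG aDEC aOVB aZBD aAL2 aAL4 aEST aLEA aBLM aFAM

theorem mainA : MainA := pf_FINA aGE1 aENG aDTB aBAL aITR aROO aENC aFML aTRL

/-- short lines at the scale of SETH, with a distribution which does not depend on the lines -/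
theorem main : MainW := mainW_of_mainA mainA

end Pool.Agent.H97.SHA
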