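import Pool.Agent.H33.SHL.ENV

/-!
Short lines with a fixed distribution: the environment of all good gadgets.
-/

set_option autoImplicit false

namespace Pool.Agent.H97.SHA

open Finset Pool.Agent.H97.SHL Pool.Agent.H33.SHL

/-- the environment, for all gadgets which are good for a small family -/
def T_ENG : Prop :=
  ∀ (m B q r a₀ g s H σ T₀ ℓ : ℕ) (τ Λ : ℝ), Par m B q r a₀ g s H σ T₀ ℓ τ Λ →
    ∀ 𝓛 : Finset (Finset (Pt m B)), 𝓛.card ≤ ℓ →
    ∃ 𝓟 : Finset (Finset (Pt m B)),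
      (𝓟.card : ℝ) ≤ 5 * ((B : ℝ) ^ m) ^ 4 * (2 * (ℓ : ℝ) + 1) ^ (T₀ + 2) ∧
      ∀ G : Fin m → Fin B → Fin q, Gd Λ 𝓟 G →
      ∃ (dc : Finset (Pt m B) → Finset (Finset (Pt m B) × Finset (Fin m)))
        (Fam : Finset (Pt m B) → Prop),
        Env (fun x => DD q r (gp G x)) ((1 + 2 * (H : ℝ)) ^ m) (Yc m B s a₀) (pcc m B s) T₀ 𝓛
          (Lfc G σ) dc (fun p => p.2.card ≤ a₀)
          (fun p => ∀ x ∈ p.1, Set.InjOn (gp G x) (p.2 : Set (Fin m))) Fam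

theorem pf_ENG (hDEC : T_DEC) (hOVB : T_OVB) (hZBD : T_ZBD) (hAL2 : T_AL2)
    (hAL4 : T_AL4) (hEST : T_EST) (hLEA : T_LEA) (hBLM : T_BLM) (hFAM : T_FAM) : T_ENG := by
  classical
  intro m B q r a₀ g s H σ T₀ ℓ τ Λ hp 𝓛 h𝓛
  have hs1 : 1 ≤ s := lt_of_le_of_lt (Nat.zero_le _) hp.σs
  have hB0 : 0 < B := hp.B1
  -- the decompositions
  choose dc hdc using fun Q => hDEC m B s Q hp.B1 hs1
  have hcard : 0 < Fintype.card (Pt m B) := by
    rw [card_pt]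
    exact pow_pos hB0 m
  have hdccard : ∀ Q, (dc Q).card ≤ Fintype.card (Pt m B) := by
    intro Q
    have h1 : (dc Q).card ≤ ((dc Q).biUnion Prod.fst).card := by
      refine Finset.card_le_card_biUnion ?_ fun p hp' => (hdc Q).ne p hp'
      intro p hp' p' hp'' hne
      exact (hdc Q).dis p (Finset.mem_coe.1 hp') p' (Finset.mem_coe.1 hp'') hne
    exact h1.trans (Finset.card_le_univ _)
  -- the gadgets
  set 𝓟 : Finset (Finset (Pt m B)) := insert univ (pa dc (fam dc 𝓛 T₀)) with h𝓟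
  have hPc : (𝓟.card : ℝ) ≤ 5 * ((B : ℝ) ^ m) ^ 4 * (2 * (ℓ : ℝ) + 1) ^ (T₀ + 2) := by
    have h1 := hFAM (Pt m B) (Finset (Fin m)) dc 𝓛 T₀ hcard hdccard
    rw [card_pt] at h1
    have h2 : (𝓟.card : ℝ) ≤ ((5 * (B ^ m) ^ 4 * (2 * 𝓛.card + 1) ^ (T₀ + 2) : ℕ) : ℝ) := by
      exact_mod_cast h1
    refine h2.trans ?_
    push_cast
    have h3 : (𝓛.card : ℝ) ≤ ℓ := by exact_mod_cast h𝓛
    have h4 : (2 * (𝓛.card : ℝ) + 1) ^ (T₀ + 2) ≤ (2 * (ℓ : ℝ) + 1) ^ (T₀ + 2) :=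
      pow_le_pow_left₀ (by positivity) (by linarith) _
    exact mul_le_mul_of_nonneg_left h4 (by positivity)
  refine ⟨𝓟, hPc, fun G hG => ?_⟩
  -- the estimates
  have hest : ∀ P ∈ 𝓟, ∀ A : Finset (Fin m), A.card ≤ a₀ → Agr P A → Spr s P A → ∀ x₀ ∈ P,
      |∑ x ∈ P, DD q r (gp G x) - P.card * fA q A (gp G x₀)| ≤
      P.card * (fA q A (gp G x₀) / 16 + 1 / 16) := fun P hP A hA hAgr hSpr x₀ hx₀ =>
    hEST m B q r a₀ g s H Λ τ G P A hp.H1 hp.qH hp.rq hp.ag hA hp.Λ0 hp.τ0 hp.τ1 hp.qΛ hp.e1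
      hp.e2 hAgr hSpr (fun M η => hZBD m B q Λ 𝓟 G hp.Λ0 hG P hP M η) x₀ hx₀
  have hpa : ∀ Q, Q ∈ fam dc 𝓛 T₀ → ∀ p ∈ dc Q, p.1 ∈ 𝓟 := by
    intro Q hQ p hp'
    rw [h𝓟]
    refine Finset.mem_insert_of_mem ?_
    unfold pa
    exact Finset.mem_biUnion.2 ⟨Q, hQ, Finset.mem_image_of_mem _ hp'⟩
  have hOV := fun Q => hOVB m B s a₀ Q (dc Q) hs1 hp.sB (hdc Q)
  have hlg := lg_one m B
  refine ⟨dc, fun Q => Q ∈ fam dc 𝓛 T₀, ?_⟩
  constructor
  · -- U1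
    exact one_le_pow₀ (by
      have : (0 : ℝ) ≤ H := Nat.cast_nonneg _
      linarith)
  · -- N1
    unfold pcc
    have h1 : (1 : ℝ) ≤ m + 1 := by
      have : (0 : ℝ) ≤ m := Nat.cast_nonneg _
      linarith
    have h2 : (1 : ℝ) ≤ (s : ℝ) ^ m := one_le_pow₀ (by exact_mod_cast hs1)
    exact one_le_mul_of_one_le_of_one_le (one_le_mul_of_one_le_of_one_le h1 hlg) h2
  · -- Y0
    unfold Yc
    have : 0 ≤ lg m B := zero_le_one.trans hlg
    positivity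
  · -- bnd
    exact fun x => (le_abs_self _).trans (hAL4 m q r H hp.H1 hp.qH hp.rq (gp G x))
  · -- mono
    rintro Q Q' ⟨𝒯, h1, h2⟩ hQ
    exact ⟨𝒯, h1, fun x hx => h2 x (hQ hx)⟩
  · exact fun Q => (hdc Q).sub
  · exact fun Q => (hdc Q).dis
  · exact fun Q => (hdc Q).cov
  · exact fun Q => (hOV Q).1
  · -- wid
    intro Q
    have h1 : (ws dc (fun p => p.2.card ≤ a₀) Q).card ≤
        ∑ p ∈ (dc Q).filter (fun p => ¬ p.2.card ≤ a₀), p.1.card := by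
      have h2 : ws dc (fun p => p.2.card ≤ a₀) Q ⊆
          ((dc Q).filter (fun p => ¬ p.2.card ≤ a₀)).biUnion Prod.fst := by
        intro x hx
        unfold ws at hx
        obtain ⟨p, hp', hx'⟩ := Finset.mem_biUnion.1 hx
        have hp'' := (@Finset.mem_filter _ _ (_) _ _).1 hp'
        exact Finset.mem_biUnion.2 ⟨p, Finset.mem_filter.2 ⟨hp''.1, hp''.2⟩, hx'⟩
      exact (Finset.card_le_card h2).trans Finset.card_biUnion_le
    have h3 : ((ws dc (fun p => p.2.card ≤ a₀) Q).card : ℝ) ≤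
        ∑ p ∈ (dc Q).filter (fun p => ¬ p.2.card ≤ a₀), (p.1.card : ℝ) := by
      exact_mod_cast h1
    exact h3.trans (hOV Q).2
  · -- bad
    intro Q p hpQ hbad R hR p' hp'R hgd
    apply hbad
    intro x hx
    have hAR : Agr R p.2 := fun y hy y' hy' => (hdc Q).agr p hpQ y (hR hy) y' (hR hy')
    have hsub : p.2 ⊆ p'.2 := (hdc R).cls p.2 hAR p' hp'R
    obtain ⟨x', hx'⟩ := (hdc R).ne p' hp'R
    have h1 : Set.InjOn (gp G x') (p.2 : Set (Fin m)) :=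
      (hgd x' hx').mono (Finset.coe_subset.2 hsub)
    have h2 : Set.EqOn (gp G x') (gp G x) (p.2 : Set (Fin m)) := by
      intro i hi
      unfold gp
      rw [(hdc Q).agr p hpQ x' (hR ((hdc R).sub p' hp'R hx')) x hx i (Finset.mem_coe.1 hi)]
    exact (h2.injOn_iff).1 h1
  · -- lf
    rintro Q ⟨𝒯, h1, h2⟩ p hpQ hgd
    exact hLEA m B q s σ G p.1 p.2 hp.σs ((hdc Q).ne p hpQ) ((hdc Q).spr p hpQ)
      ⟨𝒯, h1, fun x hx => h2 x ((hdc Q).sub p hpQ hx)⟩ hgd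
  · -- lo
    intro Q hQ p hpQ hnar hgd
    obtain ⟨x₀, hx₀⟩ := (hdc Q).ne p hpQ
    have h1 := hest p.1 (hpa Q hQ p hpQ) p.2 hnar ((hdc Q).agr p hpQ) ((hdc Q).spr p hpQ) x₀ hx₀
    have hag := hp.ag
    have h2 : 1 ≤ fA q p.2 (gp G x₀) := (hAL2 m q r H p.2 ∅ hp.H1 hp.qH hp.rq (by
      rw [Finset.card_empty]
      have : p.2.card ≤ a₀ := hnar
      omega) (gp G x₀)).2.2 (hgd x₀ hx₀)
    have h3 := (abs_le.1 h1).1
    have h4 : (0 : ℝ) ≤ (p.1.card : ℝ) := Nat.cast_nonneg _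
    have h5 : (p.1.card : ℝ) ≤ p.1.card * fA q p.2 (gp G x₀) := le_mul_of_one_le_right h4 h2
    have h6 : (p.1.card : ℝ) * (fA q p.2 (gp G x₀) / 16 + 1 / 16) =
        p.1.card * fA q p.2 (gp G x₀) / 16 + p.1.card / 16 := by ring
    rw [h6] at h3
    linarith
  · -- hi
    intro Q hQ p hpQ hnar hgd
    obtain ⟨x₀, hx₀⟩ := (hdc Q).ne p hpQ
    have h1 := hest p.1 (hpa Q hQ p hpQ) p.2 hnar ((hdc Q).agr p hpQ) ((hdc Q).spr p hpQ) x₀ hx₀
    have h2 : fA q p.2 (gp G x₀) = 0 := by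
      unfold fA
      rw [if_neg]
      intro h
      apply hgd
      intro x hx
      have h3 : Set.EqOn (gp G x₀) (gp G x) (p.2 : Set (Fin m)) := by
        intro i hi
        unfold gp
        rw [(hdc Q).agr p hpQ x₀ hx₀ x hx i (Finset.mem_coe.1 hi)]
      exact (h3.injOn_iff).1 h
    rw [h2] at h1
    have h3 := (abs_le.1 h1).2
    have h4 : (0 : ℝ) ≤ (p.1.card : ℝ) := Nat.cast_nonneg _
    change 8 * ∑ x ∈ p.1, DD q r (gp G x) ≤ _
    linarith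
  · -- full
    have h0 : (univ : Finset (Pt m B)) ∈ 𝓟 := by
      rw [h𝓟]
      exact Finset.mem_insert_self _ _
    have h1 := hest univ h0 ∅ (by rw [Finset.card_empty]; exact Nat.zero_le _)
      (fun x _ y _ i hi => absurd hi (Finset.notMem_empty i)) (spr_univ hp.sB)
      (fun _ => ⟨0, hB0⟩) (Finset.mem_univ _)
    rw [fA_empty] at h1
    have h3 := (abs_le.1 h1).1
    have h4 : (0 : ℝ) ≤ ((univ : Finset (Pt m B)).card : ℝ) := Nat.cast_nonneg _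
    rw [← Finset.card_univ]
    linarith
  · -- f1
    intro c hc
    unfold fam
    exact Finset.mem_union_left _ (Finset.mem_union_left _ (Finset.mem_union_left _ hc))
  · -- f2
    intro A hA
    unfold fam
    exact Finset.mem_union_left _ (Finset.mem_union_left _ (Finset.mem_union_right _ hA))
  · -- f3
    intro A hA p hpA c hc
    unfold fam
    refine Finset.mem_union_left _ (Finset.mem_union_right _ ?_)
    refine (hBLM (Pt m B) 𝓛 {p.1} (pa dc 𝓛) T₀ T₀ ?_ le_rfl).1 hc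
    rw [Finset.singleton_subset_iff]
    unfold pa
    exact Finset.mem_biUnion.2 ⟨A, hA, Finset.mem_image_of_mem _ hpA⟩
  · -- f4
    intro A hA p hpA c hc p'' hp'' A' hA' p' hp'
    unfold fam
    refine Finset.mem_union_right _ (Finset.mem_image₂.2 ⟨p''.1, ?_, p'.1, ?_, rfl⟩)
    · unfold pa
      refine Finset.mem_biUnion.2 ⟨c, ?_, Finset.mem_image_of_mem _ hp''⟩
      refine (hBLM (Pt m B) 𝓛 {p.1} (pa dc 𝓛) T₀ T₀ ?_ le_rfl).1 hc
      rw [Finset.singleton_subset_iff]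
      unfold pa
      exact Finset.mem_biUnion.2 ⟨A, hA, Finset.mem_image_of_mem _ hpA⟩
    · unfold pa
      exact Finset.mem_biUnion.2 ⟨A', hA', Finset.mem_image_of_mem _ hp'⟩

end Pool.Agent.H97.SHA
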