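import Pool.Agent.H97.SHL.Targets

/-!
Short lines with a fixed distribution: the number of the gadgets which are not good.
-/

set_option autoImplicit false

namespace Pool.Agent.H97.SHA

open Finset Pool.Agent.H97.SHL

open Classical in
theorem bad_card (hGE1 : T_GE1) (m B q : ℕ) (𝓟 : Finset (Finset (Pt m B))) (Λ : ℝ) (hΛ : 0 ≤ Λ) :
    ((univ.filter fun G : Fin m → Fin B → Fin q => ¬ Gd Λ 𝓟 G).card : ℝ) ≤
      (𝓟.card : ℝ) * ((B : ℝ) ^ m * 4 ^ m * (q : ℝ) ^ m * m * (2 * Real.exp (-(Λ / 2)))) *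
        ((q : ℝ) ^ B) ^ m := by
  set Ix : Finset ((Finset (Pt m B) × Finset (Fin m)) × (Pt m B × Finset (Fin m)) ×
      (Fin m → Fin q) × Fin m) :=
    ((𝓟 ×ˢ univ) ×ˢ univ ×ˢ univ ×ˢ univ).filter fun t => t.2.2.2 ∈ t.2.1.2 ∧ t.2.2.2 ∉ t.1.2
    with hIx
  set bd : ((Finset (Pt m B) × Finset (Fin m)) × (Pt m B × Finset (Fin m)) ×
      (Fin m → Fin q) × Fin m) → Finset (Fin m → Fin B → Fin q) := fun t =>
    univ.filter fun G : Fin m → Fin B → Fin q => ¬ Zs G (fx t.1.1 t.1.2 t.2.1.1) t.2.1.2 t.2.2.1 ^ 2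
      ≤ Λ * ∑ γ : Fin B,
        Zs G (fx t.1.1 (insert t.2.2.2 t.1.2) (Function.update t.2.1.1 t.2.2.2 γ))
          (t.2.1.2.erase t.2.2.2) t.2.2.1 ^ 2 with hbd
  have hcov : (univ.filter fun G : Fin m → Fin B → Fin q => ¬ Gd Λ 𝓟 G) ⊆ Ix.biUnion bd := by
    intro G hG
    have h1 := (mem_filter.1 hG).2
    unfold Gd at h1
    push Not at h1
    obtain ⟨Q, hQ, C, z, J, η, i, hiJ, hiC, hlt'⟩ := h1
    rw [mem_biUnion]
    refine ⟨((Q, C), (z, J), η, i), ?_, ?_⟩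
    · rw [hIx, mem_filter]
      refine ⟨?_, hiJ, hiC⟩
      simp only [mem_product, mem_univ, and_true]
      exact hQ
    · rw [hbd, mem_filter]
      exact ⟨mem_univ _, not_le.2 hlt'⟩
  have hcard : (((univ.filter fun G : Fin m → Fin B → Fin q => ¬ Gd Λ 𝓟 G).card : ℕ) : ℝ) ≤
      ∑ t ∈ Ix, ((bd t).card : ℝ) := by
    have h2 := (card_le_card hcov).trans card_biUnion_le
    exact_mod_cast h2
  have hone : ∀ t ∈ Ix, ((bd t).card : ℝ) ≤ 2 * Real.exp (-(Λ / 2)) * ((q : ℝ) ^ B) ^ m := by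
    intro t ht
    rw [hIx, mem_filter] at ht
    exact hGE1 m B q t.1.1 t.1.2 t.2.1.1 t.2.1.2 t.2.2.1 t.2.2.2 Λ hΛ ht.2.1 ht.2.2
  have hIc : (Ix.card : ℝ) ≤ 𝓟.card * ((B : ℝ) ^ m * 4 ^ m * (q : ℝ) ^ m * m) := by
    have h3 : Ix.card ≤ (𝓟.card * 2 ^ m) * ((B ^ m * 2 ^ m) * (q ^ m * m)) := by
      rw [hIx]
      refine (card_filter_le _ _).trans ?_
      simp only [card_product, card_univ, Fintype.card_prod, Fintype.card_finset,
        Fintype.card_fin, Fintype.card_fun]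
      nlinarith
    have h4 : ((Ix.card : ℕ) : ℝ) ≤ (((𝓟.card * 2 ^ m) * ((B ^ m * 2 ^ m) * (q ^ m * m)) : ℕ) : ℝ) := by
      exact_mod_cast h3
    refine h4.trans (le_of_eq ?_)
    push_cast
    have h5 : (4 : ℝ) ^ m = 2 ^ m * 2 ^ m := by
      rw [← mul_pow]
      norm_num
    rw [h5]
    ring
  calc ((univ.filter fun G : Fin m → Fin B → Fin q => ¬ Gd Λ 𝓟 G).card : ℝ)
      ≤ ∑ t ∈ Ix, ((bd t).card : ℝ) := hcard
    _ ≤ ∑ t ∈ Ix, 2 * Real.exp (-(Λ / 2)) * ((q : ℝ) ^ B) ^ m := sum_le_sum fun t ht => hone t ht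
    _ = Ix.card * (2 * Real.exp (-(Λ / 2)) * ((q : ℝ) ^ B) ^ m) := by
        rw [sum_const, nsmul_eq_mul]
    _ ≤ (𝓟.card * ((B : ℝ) ^ m * 4 ^ m * (q : ℝ) ^ m * m)) *
        (2 * Real.exp (-(Λ / 2)) * ((q : ℝ) ^ B) ^ m) :=
        mul_le_mul_of_nonneg_right hIc (by positivity)
    _ = _ := by ring

end Pool.Agent.H97.SHA
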