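import Pool.Agent.H97.SHL.StmtV

/-!
Short lines at the scale of SETH (MP_c62aed_lc): the statement with a fixed distribution.
-/

set_option autoImplicit false

namespace Pool.Agent.H97.SHA

open Finset Pool.Agent.H97.SHL

/-- The formula `F` is hard, up to `ε`, for the family `𝓛` of lines, with parameter `t`:
* `tree`: tree-like refutations have at least `2 ^ ((1 - ε) n)` lines;
* `branch`: decision trees of depth at most `t` have at least `2 ^ ((1 - ε) n)` leaves;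
* `space`: refutations with at most `t` lines in memory have at least `2 ^ ((1 - ε) n)` steps;
* `dag`: refutations in which every path has at most `(1 + ρ) n` inferences with two premises have
  at least `2 ^ ((1 - ρ - ε) n)` lines, with at most `K n` such inferences they have at least
  `2 ^ ((1 / (2 K - 1) - ε) n)` lines. -/
structure Hard (ε : ℝ) {n : ℕ} (t : ℕ) (𝓛 : Finset (Line n)) (F : CNF n) : Prop where
  tree : ∀ s : ℕ, Tree F 𝓛 t ∅ s → (2 : ℝ) ^ ((1 - ε) * n) ≤ s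
  branch : ∀ d s : ℕ, d ≤ t → Branch F 𝓛 t Set.univ d s → (2 : ℝ) ^ ((1 - ε) * n) ≤ s
  space : ∀ (T : ℕ) (K : ℕ → Finset (Line n)), Space F 𝓛 t T K → (2 : ℝ) ^ ((1 - ε) * n) ≤ T
  dag : ∀ (S r : ℕ) (L : ℕ → Line n) (h : ℕ → ℕ), Refutes F 𝓛 t S r L h →
    (∀ ρ : ℝ, 0 ≤ ρ → (h r : ℝ) ≤ (1 + ρ) * n → (2 : ℝ) ^ ((1 - ρ - ε) * n) ≤ S) ∧
    ∀ K : ℝ, 1 ≤ K → (h r : ℝ) ≤ K * n → (2 : ℝ) ^ ((1 / (2 * K - 1) - ε) * n) ≤ S

/-- The final statement. -/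
def MainW : Prop :=
  ∀ ε : ℝ, 0 < ε → ∃ C : ℕ, ∀ n t : ℕ, C ≤ n → n ≤ t → C * Nat.log 2 t ≤ n →
    ∃ (ι : Type) (_ : Fintype ι) (F : ι → CNF n),
      (∀ i, (F i).card ≤ t ^ C ∧ (∀ D ∈ F i, D.card ≤ C * Nat.log 2 t) ∧
        ∀ x, ∃ D ∈ F i, Falsified D x) ∧
      ∀ 𝓛 : Finset (Line n), 𝓛.card ≤ 2 ^ t →
        2 ^ t * Nat.card {i // ¬ Hard ε t 𝓛 (F i)} < Nat.card ι

end Pool.Agent.H97.SHA
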