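import Pool.Agent.H97.SHL.FinU

/-!
Short lines with a fixed distribution: the union bound.
-/

set_option autoImplicit false

namespace Pool.Agent.H97.SHA

open Finset Pool.Agent.H97.SHL Pool.Agent.H97.SHL.U

/-- the union bound -/
theorem ub2_le {n t q m b : ℕ} (hn : 16 ≤ n) (hnt : n ≤ t) (hbm : m * b ≤ n) (hq : q ≤ n)
    (hm : m ≤ n) :
    2 ^ t * (5 * (((2 ^ b : ℕ) : ℝ) ^ m) ^ 4 * (2 * ((2 ^ t : ℕ) : ℝ) + 1) ^ (t + 2 * n + 2) *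
    (((2 ^ b : ℕ) : ℝ) ^ m * 4 ^ m * (q : ℝ) ^ m * m * (2 * Real.exp (-((t : ℝ) ^ 6 / 2)))))
      < 1 := by
  have h2 : ((n : ℕ) : ℝ) ≤ 2 ^ n := by
    have : n ≤ 2 ^ n := Nat.lt_two_pow_self.le
    exact_mod_cast this
  have hB : ((2 ^ b : ℕ) : ℝ) ^ m ≤ 2 ^ n := by
    have : ((2 ^ b : ℕ) : ℝ) ^ m = 2 ^ (m * b) := by
      push_cast
      rw [← pow_mul, mul_comm]
    rw [this]
    exact pow_le_pow_right₀ (by norm_num) hbm
  have hL : 2 * ((2 ^ t : ℕ) : ℝ) + 1 ≤ 2 ^ (t + 2) := by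
    push_cast
    have : (1 : ℝ) ≤ 2 ^ t := one_le_pow₀ (by norm_num)
    rw [pow_add]
    linarith
  have h4 : (4 : ℝ) ^ m ≤ 2 ^ (2 * n) := by
    rw [show (4 : ℝ) = 2 ^ 2 by norm_num, ← pow_mul]
    exact pow_le_pow_right₀ (by norm_num) (by omega)
  have hq' : (q : ℝ) ^ m * m ≤ 2 ^ (n * (n + 1)) := by
    have e1 : (q : ℝ) ≤ 2 ^ n := le_trans (by exact_mod_cast hq) h2
    have e2 : (m : ℝ) ≤ 2 ^ n := le_trans (by exact_mod_cast hm) h2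
    calc (q : ℝ) ^ m * m ≤ (2 ^ n) ^ m * 2 ^ n :=
          mul_le_mul (pow_le_pow_left₀ (Nat.cast_nonneg q) e1 m) e2 (Nat.cast_nonneg m)
            (by positivity)
      _ = 2 ^ (n * m + n) := by rw [← pow_mul, ← pow_add]
      _ ≤ 2 ^ (n * (n + 1)) := pow_le_pow_right₀ (by norm_num) (by nlinarith)
  set E : ℝ := Real.exp (-((t : ℝ) ^ 6 / 2)) with hE
  have hE0 : 0 < E := Real.exp_pos _
  have hstep : 5 * (((2 ^ b : ℕ) : ℝ) ^ m) ^ 4 *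
      (2 * ((2 ^ t : ℕ) : ℝ) + 1) ^ (t + 2 * n + 2) *
      (((2 ^ b : ℕ) : ℝ) ^ m * 4 ^ m * (q : ℝ) ^ m * m * (2 * E)) ≤
      2 ^ 3 * (2 ^ n) ^ 4 * (2 ^ (t + 2)) ^ (t + 2 * n + 2) *
      (2 ^ n * 2 ^ (2 * n) * 2 ^ (n * (n + 1)) * (2 * E)) := by
    have hA : 5 * (((2 ^ b : ℕ) : ℝ) ^ m) ^ 4 ≤ 2 ^ 3 * (2 ^ n) ^ 4 :=
      mul_le_mul (by norm_num) (pow_le_pow_left₀ (by positivity) hB 4) (by positivity)
        (by positivity)
    have hA2 : (2 * ((2 ^ t : ℕ) : ℝ) + 1) ^ (t + 2 * n + 2) ≤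
        (2 ^ (t + 2)) ^ (t + 2 * n + 2) := pow_le_pow_left₀ (by positivity) hL _
    have hA3 : ((2 ^ b : ℕ) : ℝ) ^ m * 4 ^ m ≤ 2 ^ n * 2 ^ (2 * n) :=
      mul_le_mul hB h4 (by positivity) (by positivity)
    have hA4 : ((2 ^ b : ℕ) : ℝ) ^ m * 4 ^ m * (q : ℝ) ^ m * m ≤
        2 ^ n * 2 ^ (2 * n) * 2 ^ (n * (n + 1)) := by
      calc ((2 ^ b : ℕ) : ℝ) ^ m * 4 ^ m * (q : ℝ) ^ m * m =
            (((2 ^ b : ℕ) : ℝ) ^ m * 4 ^ m) * ((q : ℝ) ^ m * m) := by ring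
        _ ≤ (2 ^ n * 2 ^ (2 * n)) * 2 ^ (n * (n + 1)) :=
          mul_le_mul hA3 hq' (by positivity) (by positivity)
    exact mul_le_mul (mul_le_mul hA hA2 (by positivity) (by positivity))
      (mul_le_mul_of_nonneg_right hA4 (by positivity)) (by positivity) (by positivity)
  have hpow : (2 : ℝ) ^ 3 * (2 ^ n) ^ 4 * (2 ^ (t + 2)) ^ (t + 2 * n + 2) *
      (2 ^ n * 2 ^ (2 * n) * 2 ^ (n * (n + 1)) * (2 * E)) =
      2 ^ (4 + 4 * n + (t + 2) * (t + 2 * n + 2) + 3 * n + n * (n + 1)) * E := by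
    rw [← pow_mul, ← pow_mul]
    have : (2 : ℝ) ^ (4 + 4 * n + (t + 2) * (t + 2 * n + 2) + 3 * n + n * (n + 1)) =
        2 ^ 3 * 2 ^ (n * 4) * 2 ^ ((t + 2) * (t + 2 * n + 2)) *
        (2 ^ n * 2 ^ (2 * n) * 2 ^ (n * (n + 1)) * 2) := by
      rw [show 4 + 4 * n + (t + 2) * (t + 2 * n + 2) + 3 * n + n * (n + 1) =
        3 + n * 4 + (t + 2) * (t + 2 * n + 2) + (n + 2 * n + n * (n + 1) + 1) by ring]
      rw [pow_add, pow_add, pow_add, pow_add, pow_add, pow_add, pow_one]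
    rw [this]
    ring
  have hexp := ub_exp n t hn hnt
  have hfin : 2 ^ t * ((2 : ℝ) ^ (4 + 4 * n + (t + 2) * (t + 2 * n + 2) + 3 * n + n * (n + 1)) * E)
      < 1 := by
    have h5 : (2 : ℝ) ^ (4 + 4 * n + (t + 2) * (t + 2 * n + 2) + 3 * n + n * (n + 1)) ≤
        2 ^ (30 * t ^ 2) := pow_le_pow_right₀ (by norm_num) (by omega)
    have h6 : (2 : ℝ) ^ t * 2 ^ (30 * t ^ 2) < Real.exp ((t : ℝ) ^ 6 / 2) := by
      have h7 : (2 : ℝ) ≤ Real.exp 1 := by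
        have := Real.add_one_le_exp (1 : ℝ)
        linarith
      have h8 : t ≤ t ^ 2 := by nlinarith [hn.trans hnt]
      calc (2 : ℝ) ^ t * 2 ^ (30 * t ^ 2) = 2 ^ (t + 30 * t ^ 2) := (pow_add _ _ _).symm
        _ ≤ 2 ^ (31 * t ^ 2) := pow_le_pow_right₀ (by norm_num) (by omega)
        _ ≤ (Real.exp 1) ^ (31 * t ^ 2) := pow_le_pow_left₀ (by norm_num) h7 _
        _ = Real.exp ((31 * t ^ 2 : ℕ) : ℝ) := by
            rw [← Real.exp_nat_mul, mul_one]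
        _ < Real.exp ((t : ℝ) ^ 6 / 2) := by
            apply Real.exp_lt_exp.2
            push_cast
            have e1 : (t : ℝ) ^ 6 = (t : ℝ) ^ 2 * (t : ℝ) ^ 4 := by
              rw [← pow_add]
            rw [e1]
            have e3 : (16 : ℝ) ≤ t := by exact_mod_cast hn.trans hnt
            have e2 : (0 : ℝ) < (t : ℝ) ^ 2 := by positivity
            have e4 : (4096 : ℝ) ≤ (t : ℝ) ^ 4 := by
              calc (4096 : ℝ) ≤ 16 ^ 4 := by norm_num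
                _ ≤ (t : ℝ) ^ 4 := pow_le_pow_left₀ (by norm_num) e3 4
            nlinarith
    calc 2 ^ t * ((2 : ℝ) ^ (4 + 4 * n + (t + 2) * (t + 2 * n + 2) + 3 * n + n * (n + 1)) * E)
        ≤ 2 ^ t * (2 ^ (30 * t ^ 2) * E) :=
          mul_le_mul_of_nonneg_left (mul_le_mul_of_nonneg_right h5 hE0.le) (by positivity)
      _ = (2 ^ t * 2 ^ (30 * t ^ 2)) * E := by ring
      _ < Real.exp ((t : ℝ) ^ 6 / 2) * E := mul_lt_mul_of_pos_right h6 hE0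
      _ = 1 := by
        rw [hE, ← Real.exp_add]
        simp
  refine lt_of_le_of_lt (mul_le_mul_of_nonneg_left hstep (by positivity)) ?_
  rw [hpow]
  exact hfin

end Pool.Agent.H97.SHA
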